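import Pool.Agent.H45.Planch

set_option autoImplicit false

open Pool.Agent.H45.Planch

namespace Pool.Agent.Results.MP_64a7c6_pr.RowSum

/-- For `n = 9` the law of the sum of the first two rows is not log-concave at `j = 3`. -/
theorem result : rowSumProb 9 2 3 ^ 2 < rowSumProb 9 2 2 * rowSumProb 9 2 4 := not_logconcave

end Pool.Agent.Results.MP_64a7c6_pr.RowSum
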